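import Pool.Agent.CPT.StmtsB

set_option autoImplicit false

/-! # CPT, row ALI (independence gives an embedding). -/

namespace Pool.Agent.CPT.H86

open Pool.Agent.CPT

theorem aeval_cons {E K : Type} [Field E] [Field K] [Algebra E K] (n : ℕ) (y0 : K)
    (y : Fin n → K) (f : MvPolynomial (Fin (n + 1)) E) :
    MvPolynomial.aeval (Fin.cons y0 y : Fin (n + 1) → K) f
      = (MvPolynomial.finSuccEquiv E n f).eval₂ (MvPolynomial.aeval y).toRingHom y0 := by
  have h : (MvPolynomial.aeval (R := E) (Fin.cons y0 y : Fin (n + 1) → K)).toRingHom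
      = (Polynomial.eval₂RingHom (MvPolynomial.aeval (R := E) y).toRingHom y0).comp
        (MvPolynomial.finSuccEquiv E n).toRingEquiv.toRingHom := by
    apply MvPolynomial.ringHom_ext
    · intro r
      simp [MvPolynomial.finSuccEquiv_apply]
    · intro i
      refine Fin.cases ?_ (fun j => ?_) i
      · simp [MvPolynomial.finSuccEquiv_X_zero]
      · simp [MvPolynomial.finSuccEquiv_X_succ]
  exact congrArg (fun g => g f) h

theorem ali : AliStmt := by
  intro E K _ _ _ n N y0 y m hN hP
  classical
  set g : MvPolynomial (Fin n) E →+* K := (MvPolynomial.aeval (R := E) y).toRingHom with hg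
  have hinj : Function.Injective g := by
    rw [injective_iff_map_eq_zero]
    intro Q hQ
    set i0 : Fin N := ⟨0, hN⟩ with hi0
    have h1 := hP (fun i => if i = i0 then MvPolynomial.rename Fin.succ Q else 0) (by
      rw [Finset.sum_eq_single i0]
      · rw [if_pos rfl, MvPolynomial.aeval_rename]
        have : (Fin.cons y0 y : Fin (n + 1) → K) ∘ Fin.succ = y := by
          funext j
          simp
        rw [this]
        have hQ' : MvPolynomial.aeval y Q = 0 := hQ
        rw [hQ', mul_zero]
      · intro b _ hb
        rw [if_neg hb, map_zero, mul_zero]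
      · intro h
        exact absurd (Finset.mem_univ _) h)
    have h2 := congrFun h1 i0
    simp only [if_pos, Pi.zero_apply] at h2
    exact (MvPolynomial.rename_injective _ (Fin.succ_injective n)) (by rw [h2, map_zero])
  obtain ⟨ι, hιx⟩ : ∃ ι : KK n E →+* K, ∀ x : MvPolynomial (Fin n) E,
      ι (algebraMap (MvPolynomial (Fin n) E) (KK n E) x) = g x :=
    ⟨IsFractionRing.lift (K := KK n E) hinj, fun x => by rw [IsFractionRing.lift_algebraMap]⟩
  refine ⟨ι, ?_, ?_, ?_⟩
  · intro a
    have h1 : algebraMap E (KK n E) a
        = algebraMap (MvPolynomial (Fin n) E) (KK n E) (MvPolynomial.C a) := by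
      rw [IsScalarTower.algebraMap_apply E (MvPolynomial (Fin n) E) (KK n E),
        MvPolynomial.algebraMap_eq]
    rw [h1, hιx, hg]
    simp
  · intro j
    unfold al
    rw [hιx, hg]
    simp
  · intro p hp
    have hιg : ι.comp (algebraMap (MvPolynomial (Fin n) E) (KK n E)) = g := by
      refine RingHom.ext fun x => ?_
      rw [RingHom.comp_apply]
      exact hιx x
    -- common denominator
    obtain ⟨b, hb⟩ := IsLocalization.exist_integer_multiples_of_finset
      (nonZeroDivisors (MvPolynomial (Fin n) E))
      (Finset.univ.biUnion fun i : Fin N => (p i).support.image fun k => (p i).coeff k)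
    have hb0 : algebraMap (MvPolynomial (Fin n) E) (KK n E) (b : MvPolynomial (Fin n) E) ≠ 0 := by
      intro h0
      have : (b : MvPolynomial (Fin n) E) = 0 :=
        (IsFractionRing.injective (MvPolynomial (Fin n) E) (KK n E)) (by rw [h0, map_zero])
      exact nonZeroDivisors.ne_zero b.2 this
    have hlift : ∀ i : Fin N, ∃ q : Polynomial (MvPolynomial (Fin n) E),
        q.map (algebraMap (MvPolynomial (Fin n) E) (KK n E))
          = Polynomial.C (algebraMap (MvPolynomial (Fin n) E) (KK n E) b) * p i := by
      intro i
      have hmem : Polynomial.C (algebraMap (MvPolynomial (Fin n) E) (KK n E) b) * p i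
          ∈ Polynomial.lifts (algebraMap (MvPolynomial (Fin n) E) (KK n E)) := by
        rw [Polynomial.lifts_iff_coeff_lifts]
        intro k
        rw [Polynomial.coeff_C_mul]
        by_cases hk : (p i).coeff k = 0
        · rw [hk, mul_zero]
          exact ⟨0, map_zero _⟩
        · have hk' : (p i).coeff k ∈ Finset.univ.biUnion
              fun i : Fin N => (p i).support.image fun k => (p i).coeff k := by
            rw [Finset.mem_biUnion]
            refine ⟨i, Finset.mem_univ _, ?_⟩
            rw [Finset.mem_image]
            exact ⟨k, Polynomial.mem_support_iff.mpr hk, rfl⟩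
          obtain ⟨r, hr⟩ := hb _ hk'
          refine ⟨r, ?_⟩
          rw [hr, Algebra.smul_def]
      obtain ⟨q, hq⟩ := (Polynomial.mem_lifts _).mp hmem
      exact ⟨q, hq⟩
    choose q hq using hlift
    have hzero := hP (fun i => (MvPolynomial.finSuccEquiv E n).symm (q i)) (by
      have e1 : ∀ i : Fin N, m i * MvPolynomial.aeval (Fin.cons y0 y : Fin (n + 1) → K)
          ((MvPolynomial.finSuccEquiv E n).symm (q i))
          = ι (algebraMap (MvPolynomial (Fin n) E) (KK n E) b) * (m i * (p i).eval₂ ι y0) := by
        intro i
        rw [aeval_cons, AlgEquiv.apply_symm_apply]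
        have e2 : (q i).eval₂ (MvPolynomial.aeval (R := E) y).toRingHom y0
            = ((q i).map (algebraMap (MvPolynomial (Fin n) E) (KK n E))).eval₂ ι y0 := by
          rw [Polynomial.eval₂_map, hιg]
        rw [e2, hq i, Polynomial.eval₂_mul, Polynomial.eval₂_C]
        ring
      rw [Finset.sum_congr rfl (fun i _ => e1 i), ← Finset.mul_sum, hp, mul_zero])
    funext i
    have h2 := congrFun hzero i
    simp only [Pi.zero_apply] at h2
    have h3 : q i = 0 := by
      have := congrArg (MvPolynomial.finSuccEquiv E n) h2
      rwa [AlgEquiv.apply_symm_apply, map_zero] at this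
    have h4 := hq i
    rw [h3, Polynomial.map_zero] at h4
    rcases mul_eq_zero.mp h4.symm with h | h
    · exact absurd (Polynomial.C_eq_zero.mp h) hb0
    · exact h

end Pool.Agent.CPT.H86
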