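import Pool.Agent.CPT.StmtsB
import Pool.Agent.Helper1_PGH.DerivExt

set_option autoImplicit false

/-! # CPT, row DUA (dual derivations of the field of rational functions). -/

namespace Pool.Agent.CPT.H86

open Pool.Agent.CPT

theorem dua : DuaStmt := by
  intro E _ n
  have h : ∀ i : Fin n, ∃ D' : Derivation E (KK n E) (KK n E),
      ∀ a : MvPolynomial (Fin n) E, D' (algebraMap (MvPolynomial (Fin n) E) (KK n E) a)
        = algebraMap (MvPolynomial (Fin n) E) (KK n E) (MvPolynomial.pderiv i a) := by
    intro i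
    have : Algebra.FormallyEtale (MvPolynomial (Fin n) E) (KK n E) :=
      Algebra.FormallyEtale.of_isLocalization (nonZeroDivisors (MvPolynomial (Fin n) E))
    obtain ⟨D', hD'⟩ := PGH.exists_deriv_ext E (MvPolynomial (Fin n) E) (KK n E) (KK n E)
      ((Algebra.linearMap (MvPolynomial (Fin n) E) (KK n E)).compDer (MvPolynomial.pderiv i))
    exact ⟨D', fun a => hD' a⟩
  choose δ hδ using h
  refine ⟨δ, ?_⟩
  intro i j
  have h1 := hδ i (MvPolynomial.X j)
  unfold al
  rw [h1, MvPolynomial.pderiv_X]
  by_cases hij : i = j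
  · subst hij
    rw [Pi.single_eq_same, if_pos rfl, map_one]
  · rw [Pi.single_eq_of_ne (Ne.symm hij), if_neg hij, map_zero]

end Pool.Agent.CPT.H86
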